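import Pool.Agent.H62.Alg.UnivC

/-!
# Lemma U (H62/Alg/UnivD): the universal difference operator in elementary form
-/

open Finset

namespace H62Alg

/-- **Lemma U.**  For finitely many subspaces `K i` of `ℚ^n` there is a linear map
`Λ : ℚ^n → ℚ[ℤ^n]` (finitely supported functions) with: the sums of the coefficients of `Λ b`
over every coset of `K i ∩ ℤ^n` vanish for `b ∈ K i`; the sum of all coefficients of `Λ b`
vanishes; and the first moment of `Λ b` is `b`. -/
theorem lemmaU (n : ℕ) {ι : Type*} [Finite ι] (K : ι → Submodule ℚ (Fin n → ℚ)) :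
    ∃ Lam : (Fin n → ℚ) →ₗ[ℚ] ((Fin n → ℤ) →₀ ℚ),
      (∀ i, ∀ b ∈ K i, ∀ (z : Fin n → ℤ)
        [∀ f : Fin n → ℤ, Decidable ((fun j => ((f - z) j : ℚ)) ∈ K i)],
        (Lam b).sum (fun f a => if (fun j => ((f - z) j : ℚ)) ∈ K i then a else 0) = 0) ∧
      (∀ b, (Lam b).sum (fun _ a => a) = 0) ∧
      (∀ b, (Lam b).sum (fun f a => a • (fun j => (f j : ℚ))) = b) := by
  obtain ⟨L, h1, h2, h3⟩ := univ_full n K
  refine ⟨(AddMonoidAlgebra.coeffLinearEquiv (S := ℚ) (M := Fin n → ℤ) ℚ).toLinearMap.comp L,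
    ?_, ?_, ?_⟩
  · intro i b hb z inst
    exact @cosetSum_Idiff n (K i) _ (h1 i b hb) z (fun f => inst f)
  · intro b
    have h := h2 b
    rw [aug_eq_ev, ev_eq] at h
    refine Eq.trans ?_ h
    apply Finsupp.sum_congr
    intro f _
    simp
  · intro b
    have h := h3 b
    unfold mom at h
    rw [ev_eq] at h
    exact h

end H62Alg
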