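import Pool.Agent.H62.Alg.Coef

/-!
# Truncated logarithms in group rings are additive (H62/Alg/Add)
-/

open Polynomial Finset

namespace H62Alg

/-- In a commutative `ℚ`-algebra, the element `E(u) = ∑ c_k u^k` is additive for products of
elements congruent to `1` modulo `I`, up to `I^(N+1)`. -/
theorem E_add {R : Type*} [CommRing R] [Algebra ℚ R] (I : Ideal R) (N : ℕ) (hN : 1 ≤ N)
    (c : ℕ → ℚ)
    (hc : ∀ p : ℚ[X], p.natDegree ≤ N →
      ∑ k ∈ range (N + 1), c k * p.eval (k : ℚ) = p.derivative.eval 0)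
    (u v : R) (hu : u - 1 ∈ I) (hv : v - 1 ∈ I) :
    (∑ k ∈ range (N + 1), algebraMap ℚ R (c k) * (u * v) ^ k)
      - (∑ k ∈ range (N + 1), algebraMap ℚ R (c k) * u ^ k)
      - (∑ k ∈ range (N + 1), algebraMap ℚ R (c k) * v ^ k) ∈ I ^ (N + 1) := by
  classical
  -- sum of the c_k is zero
  have h0 : ∑ k ∈ range (N + 1), c k = 0 := by
    have := hc 1 (by simp)
    simpa using this
  have hsum0 : ∑ k ∈ range (N + 1), algebraMap ℚ R (c k) = 0 := by
    rw [← map_sum, h0, map_zero]
  set a := u - 1 with ha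
  set b := v - 1 with hb
  have hu' : u = a + 1 := by rw [ha]; ring
  have hv' : v = b + 1 := by rw [hb]; ring
  have h1 : (∑ k ∈ range (N + 1), algebraMap ℚ R (c k) * (u * v) ^ k)
      - (∑ k ∈ range (N + 1), algebraMap ℚ R (c k) * u ^ k)
      - (∑ k ∈ range (N + 1), algebraMap ℚ R (c k) * v ^ k)
      = ∑ k ∈ range (N + 1), algebraMap ℚ R (c k) * ((u ^ k - 1) * (v ^ k - 1)) := by
    have : ∀ k, algebraMap ℚ R (c k) * ((u ^ k - 1) * (v ^ k - 1)) =
      algebraMap ℚ R (c k) * (u * v) ^ k - algebraMap ℚ R (c k) * u ^ k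
        - algebraMap ℚ R (c k) * v ^ k + algebraMap ℚ R (c k) := by
      intro k
      rw [mul_pow]
      ring
    simp_rw [this]
    rw [sum_add_distrib, sum_sub_distrib, sum_sub_distrib, hsum0, add_zero]
  rw [h1]
  -- expansion of u^k - 1
  have hexp : ∀ (w : R) (k : ℕ), k ∈ range (N + 1) → (w + 1) ^ k - 1 =
      ∑ i ∈ Icc 1 N, algebraMap ℚ R ((k.choose i : ℕ) : ℚ) * w ^ i := by
    intro w k hk
    have hk' : k ≤ N := by simpa [Nat.lt_succ_iff] using hk
    rw [add_pow]
    simp only [one_pow, mul_one]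
    have e1 : ∑ i ∈ range (k + 1), w ^ i * (k.choose i : R) =
        ∑ i ∈ range (N + 1), w ^ i * (k.choose i : R) := by
      apply sum_subset (range_mono (by omega))
      intro i _ hi
      have : k < i := by simpa using hi
      rw [Nat.choose_eq_zero_of_lt this]
      simp
    rw [e1]
    have e2 : range (N + 1) = insert 0 (Icc 1 N) := by
      ext i
      simp only [mem_range, mem_insert, mem_Icc]
      omega
    rw [e2, sum_insert (by simp)]
    simp only [pow_zero, Nat.choose_zero_right, Nat.cast_one, mul_one, add_sub_cancel_left]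
    apply sum_congr rfl
    intro i _
    rw [map_natCast]
    ring
  have h2 : ∑ k ∈ range (N + 1), algebraMap ℚ R (c k) * ((u ^ k - 1) * (v ^ k - 1)) =
      ∑ i ∈ Icc 1 N, ∑ j ∈ Icc 1 N,
        algebraMap ℚ R (∑ k ∈ range (N + 1), c k * ((k.choose i : ℚ) * (k.choose j : ℚ))) *
          (a ^ i * b ^ j) := by
    have : ∀ k ∈ range (N + 1), algebraMap ℚ R (c k) * ((u ^ k - 1) * (v ^ k - 1)) =
        ∑ i ∈ Icc 1 N, ∑ j ∈ Icc 1 N,
          algebraMap ℚ R (c k * ((k.choose i : ℚ) * (k.choose j : ℚ))) * (a ^ i * b ^ j) := by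
      intro k hk
      rw [hu', hv', hexp a k hk, hexp b k hk, sum_mul_sum, mul_sum]
      apply sum_congr rfl
      intro i _
      rw [mul_sum]
      apply sum_congr rfl
      intro j _
      rw [map_mul, map_mul]
      ring
    rw [sum_congr rfl this, sum_comm]
    apply sum_congr rfl
    intro i _
    rw [sum_comm]
    apply sum_congr rfl
    intro j _
    rw [map_sum, sum_mul]
  rw [h2]
  apply Ideal.sum_mem
  intro i hi
  apply Ideal.sum_mem
  intro j hj
  have hi1 : 1 ≤ i := (mem_Icc.mp hi).1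
  have hj1 : 1 ≤ j := (mem_Icc.mp hj).1
  by_cases hij : i + j ≤ N
  · have hz : ∑ k ∈ range (N + 1), c k * ((k.choose i : ℚ) * (k.choose j : ℚ)) = 0 := by
      have := hc (binP i * binP j)
        ((natDegree_mul_le).trans ((add_le_add (binP_natDegree i) (binP_natDegree j)).trans hij))
      simp only [eval_mul, binP_eval] at this
      rw [this, derivative_mul, eval_add, eval_mul, eval_mul, binP_eval_zero hi1,
        binP_eval_zero hj1]
      ring
    rw [hz, map_zero, zero_mul]
    exact Ideal.zero_mem _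
  · apply Ideal.mul_mem_left
    have : a ^ i * b ^ j ∈ I ^ (i + j) := by
      rw [pow_add]
      exact Ideal.mul_mem_mul (Ideal.pow_mem_pow hu i) (Ideal.pow_mem_pow hv j)
    exact Ideal.pow_le_pow_right (by omega) this

end H62Alg
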