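import Mathlib

/-!
# Coefficients `c_k` with `∑ c_k p(k) = p'(0)` (H62/Alg/Coef)
-/

open Polynomial Finset

namespace H62Alg

/-- There are rational weights on `0,…,N` computing the derivative at `0` of every polynomial of
degree at most `N`. -/
theorem exists_coef (N : ℕ) : ∃ c : ℕ → ℚ, ∀ p : ℚ[X], p.natDegree ≤ N →
    ∑ k ∈ range (N + 1), c k * p.eval (k : ℚ) = p.derivative.eval 0 := by
  classical
  let v : ℕ → ℚ := fun k => (k : ℚ)
  refine ⟨fun k => (Lagrange.basis (range (N + 1)) v k).derivative.eval 0, ?_⟩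
  intro p hp
  have hinj : Set.InjOn v (range (N + 1)) := by
    intro a _ b _ h
    exact_mod_cast (show (a : ℚ) = (b : ℚ) from h)
  have hdeg : p.degree < (range (N + 1)).card := by
    rw [card_range]
    calc p.degree ≤ (p.natDegree : WithBot ℕ) := degree_le_natDegree
      _ ≤ (N : WithBot ℕ) := by exact_mod_cast hp
      _ < ((N + 1 : ℕ) : WithBot ℕ) := by exact_mod_cast Nat.lt_succ_self N
  have h1 := Lagrange.eq_interpolate (f := p) hinj hdeg
  have h2 : p.derivative.eval 0 =
      (Lagrange.interpolate (range (N + 1)) v (fun i => p.eval (v i))).derivative.eval 0 := by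
    rw [← h1]
  rw [h2, Lagrange.interpolate_apply, derivative_sum, eval_finsetSum]
  apply sum_congr rfl
  intro k _
  rw [derivative_mul, derivative_C]
  simp [v]
  ring

/-- The binomial polynomial. -/
noncomputable def binP (i : ℕ) : ℚ[X] := C ((i.factorial : ℚ)⁻¹) * descPochhammer ℚ i

lemma binP_eval (i k : ℕ) : (binP i).eval (k : ℚ) = (k.choose i : ℚ) := by
  unfold binP
  rw [eval_mul, eval_C, descPochhammer_eval_eq_descFactorial, Nat.descFactorial_eq_factorial_mul_choose]
  push_cast
  have : (i.factorial : ℚ) ≠ 0 := by exact_mod_cast Nat.factorial_ne_zero i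
  field_simp

lemma binP_natDegree (i : ℕ) : (binP i).natDegree ≤ i := by
  unfold binP
  refine (natDegree_C_mul_le _ _).trans ?_
  rw [descPochhammer_natDegree]

lemma binP_eval_zero {i : ℕ} (hi : 1 ≤ i) : (binP i).eval 0 = 0 := by
  have := binP_eval i 0
  rw [Nat.cast_zero] at this
  rw [this, Nat.choose_eq_zero_of_lt (by omega)]
  simp

end H62Alg
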