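import Pool.Agent.H62.Alg.LogLift

/-!
# The log-lift lemma (H62/Alg/LL)
-/

open Finset

namespace H62Alg

/-- **Log-lift lemma.** A linear relation `∑ ψ_c ⊗ y_c = 0` lifts to a group-ring relation
`∑ β_c (t(y_c) - 1) ψ_c = 0` with all `β_c` of augmentation `1`. -/
theorem log_lift {R : Type*} [CommRing R] [Algebra ℚ R] [IsNoetherianRing R]
    {G V : Type*} [AddCommGroup G] [AddCommGroup V] [Module ℚ V]
    (ρ : G →+ V) (hρ : Function.Injective ρ) (t : Multiplicative G →* R) (aug : R →+* ℚ)
    (ht : ∀ g, aug (t g) = 1)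
    {C L : Type*} [Fintype C] [Fintype L] (y : C → G) (ψ : C → L → ℚ)
    (hrel : ∀ l, ∑ c, ψ c l • ρ (y c) = 0) :
    ∃ β : C → R, (∀ c, aug (β c) = 1) ∧
      ∀ l, ∑ c, β c * (t (Multiplicative.ofAdd (y c)) - 1) * algebraMap ℚ R (ψ c l) = 0 := by
  classical
  set I : Ideal R := RingHom.ker aug with hI
  have htI : ∀ g, t g - 1 ∈ I := by
    intro g
    rw [hI, RingHom.mem_ker, map_sub, ht, map_one, sub_self]
  let u : C → R := fun c => t (Multiplicative.ofAdd (y c))
  let e : C → (L → R) := fun c l => (u c - 1) * algebraMap ℚ R (ψ c l)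
  let NN : Submodule R (L → R) := Submodule.span R (Set.range e)
  let x : L → R := ∑ c, e c
  -- step 1
  have step1 : ∀ N : ℕ, 1 ≤ N → ∃ w : L → R, (∀ l, w l ∈ I ^ (N + 1)) ∧ x - w ∈ I • NN := by
    intro N hN
    obtain ⟨c, hc⟩ := exists_coef N
    refine ⟨fun l => ∑ i, algebraMap ℚ R (ψ i l) * Eel c N (u i), ?_, ?_⟩
    · intro l
      exact Eel_rel ρ hρ t I htI N hN c hc y (fun i => ψ i l) (hrel l)
    · -- E(u) = (u-1) * Lel
      have hc0 : ∑ k ∈ range (N + 1), c k = 0 := by
        have := hc 1 (by simp)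
        simpa using this
      have hc1 : ∑ k ∈ range (N + 1), c k * (k : ℚ) = 1 := by
        have := hc Polynomial.X (by simpa using hN)
        simpa using this
      have hLel : ∀ w : R, ∃ Lw : R, Eel c N w = (w - 1) * Lw ∧ (aug w = 1 → aug Lw = 1) := by
        intro w
        refine ⟨∑ k ∈ range (N + 1), algebraMap ℚ R (c k) * ∑ j ∈ range k, w ^ j, ?_, ?_⟩
        · unfold Eel
          rw [mul_sum]
          have e1 : ∀ k, (w - 1) * (algebraMap ℚ R (c k) * ∑ j ∈ range k, w ^ j) =
              algebraMap ℚ R (c k) * w ^ k - algebraMap ℚ R (c k) := by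
            intro k
            have := mul_geom_sum w k
            calc (w - 1) * (algebraMap ℚ R (c k) * ∑ j ∈ range k, w ^ j)
                = algebraMap ℚ R (c k) * ((w - 1) * ∑ j ∈ range k, w ^ j) := by ring
              _ = _ := by rw [this]; ring
          simp_rw [e1]
          rw [sum_sub_distrib, ← map_sum, hc0, map_zero, sub_zero]
        · intro hw
          rw [map_sum]
          have e2 : ∀ k, aug (algebraMap ℚ R (c k) * ∑ j ∈ range k, w ^ j) = c k * (k : ℚ) := by
            intro k
            rw [map_mul, map_sum]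
            simp only [map_pow, hw, one_pow, sum_const, card_range, nsmul_eq_mul, mul_one]
            congr 1
            exact congrFun (congrArg DFunLike.coe
              (Subsingleton.elim (aug.comp (algebraMap ℚ R)) (RingHom.id ℚ))) (c k)
          simp_rw [e2]
          exact hc1
      choose Lel hLel1 hLel2 using hLel
      have hx : x - (fun l => ∑ i, algebraMap ℚ R (ψ i l) * Eel c N (u i)) =
          ∑ i, (1 - Lel (u i)) • e i := by
        funext l
        simp only [x, e, Finset.sum_apply, Pi.sub_apply, Pi.smul_apply, smul_eq_mul]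
        rw [← sum_sub_distrib]
        apply sum_congr rfl
        intro i _
        rw [hLel1 (u i)]
        ring
      rw [hx]
      apply Submodule.sum_mem
      intro i _
      apply Submodule.smul_mem_smul
      · rw [hI, RingHom.mem_ker, map_sub, map_one, hLel2 (u i) (ht _), sub_self]
      · exact Submodule.subset_span ⟨i, rfl⟩
  -- step 2: Krull intersection in the quotient
  let Q := (L → R) ⧸ (I • NN)
  let q : (L → R) →ₗ[R] Q := (I • NN).mkQ
  have step2 : q x ∈ (⨅ i : ℕ, I ^ i • ⊤ : Submodule R Q) := by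
    rw [Submodule.mem_iInf]
    intro i
    obtain ⟨w, hw, hxw⟩ := step1 (i + 1) (by omega)
    have h1 : q x = q w := by
      have : q (x - w) = 0 := (Submodule.Quotient.mk_eq_zero _).mpr hxw
      rw [map_sub] at this
      exact sub_eq_zero.mp this
    rw [h1]
    have h2 : w = ∑ l, w l • (Pi.single l (1 : R) : L → R) := by
      funext l
      simp [Finset.sum_apply, Pi.single_apply]
    rw [h2, map_sum]
    apply Submodule.sum_mem
    intro l _
    rw [map_smul]
    apply Submodule.smul_mem_smul
    · exact Ideal.pow_le_pow_right (by omega) (hw l)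
    · trivial
  rw [Ideal.mem_iInf_smul_pow_eq_bot_iff] at step2
  obtain ⟨r, hr⟩ := step2
  -- step 3
  have step3 : (1 - (r : R)) • x ∈ I • NN := by
    have : q ((1 - (r : R)) • x) = 0 := by
      rw [map_smul, sub_smul, one_smul, hr, sub_self]
    exact (Submodule.Quotient.mk_eq_zero _).mp this
  rw [Submodule.mem_ideal_smul_span_iff_exists_sum] at step3
  obtain ⟨α, hα, hsum⟩ := step3
  refine ⟨fun c => 1 - (r : R) - α c, ?_, ?_⟩
  · intro c
    have h1 : aug (r : R) = 0 := r.2
    have h2 : aug (α c) = 0 := hα c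
    rw [map_sub, map_sub, h1, h2, map_one]
    ring
  · intro l
    have h1 : (α.sum fun i c => c • e i) = ∑ c, α c • e c := by
      rw [Finsupp.sum_fintype]
      intro i
      rw [zero_smul]
    rw [h1] at hsum
    have h2 := congrFun hsum l
    simp only [x, e, Finset.sum_apply, Pi.smul_apply, smul_eq_mul] at h2
    have h3 : ∀ c, (1 - (r : R) - α c) * (t (Multiplicative.ofAdd (y c)) - 1) *
        algebraMap ℚ R (ψ c l) = (1 - (r : R)) * ((u c - 1) * algebraMap ℚ R (ψ c l)) -
        α c * ((u c - 1) * algebraMap ℚ R (ψ c l)) := by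
      intro c
      simp only [u]
      ring
    simp_rw [h3]
    rw [sum_sub_distrib, ← mul_sum, h2]
    ring

end H62Alg
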