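import Pool.Agent.H62.Alg.Add

/-!
# Lifting linear relations to group-ring relations (H62/Alg/LogLift)
-/

open Finset

namespace H62Alg

section
variable {R : Type*} [CommRing R] [Algebra ℚ R]

/-- the element `∑ c_k u^k` -/
noncomputable def Eel (c : ℕ → ℚ) (N : ℕ) (u : R) : R :=
  ∑ k ∈ range (N + 1), algebraMap ℚ R (c k) * u ^ k

/-- An additive relation among group elements gives a relation modulo `I^(N+1)`. -/
theorem Eel_rel {G V : Type*} [AddCommGroup G] [AddCommGroup V] [Module ℚ V]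
    (ρ : G →+ V) (hρ : Function.Injective ρ) (t : Multiplicative G →* R) (I : Ideal R)
    (ht : ∀ g, t g - 1 ∈ I) (N : ℕ) (hN : 1 ≤ N) (c : ℕ → ℚ)
    (hc : ∀ p : Polynomial ℚ, p.natDegree ≤ N →
      ∑ k ∈ range (N + 1), c k * p.eval (k : ℚ) = p.derivative.eval 0)
    {C : Type*} [Fintype C] (y : C → G) (a : C → ℚ) (hrel : ∑ i, a i • ρ (y i) = 0) :
    ∑ i, algebraMap ℚ R (a i) * Eel c N (t (Multiplicative.ofAdd (y i))) ∈ I ^ (N + 1) := by
  classical
  let J := I ^ (N + 1)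
  let E : G → R ⧸ J := fun g => Ideal.Quotient.mk J (Eel c N (t (Multiplicative.ofAdd g)))
  have hEadd : ∀ g h, E (g + h) = E g + E h := by
    intro g h
    have h1 := E_add I N hN c hc (t (Multiplicative.ofAdd g)) (t (Multiplicative.ofAdd h))
      (ht _) (ht _)
    have h2 : Eel c N (t (Multiplicative.ofAdd (g + h))) - Eel c N (t (Multiplicative.ofAdd g))
        - Eel c N (t (Multiplicative.ofAdd h)) ∈ J := by
      unfold Eel
      rw [ofAdd_add, map_mul]
      exact h1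
    have h3 := Ideal.Quotient.eq_zero_iff_mem.mpr h2
    rw [map_sub, map_sub] at h3
    show E (g + h) = E g + E h
    have h4 : E (g + h) - E g - E h = 0 := h3
    linear_combination h4
  let Eh : G →+ R ⧸ J := AddMonoidHom.mk' E hEadd
  -- clear denominators
  let D : ℕ := ∏ i, (a i).den
  have hD : (D : ℚ) ≠ 0 := by
    have : D ≠ 0 := Finset.prod_ne_zero_iff.mpr (fun i _ => (a i).den_nz)
    exact_mod_cast this
  have hint : ∀ i, ∃ z : ℤ, (z : ℚ) = (D : ℚ) * a i := by
    intro i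
    obtain ⟨k, hk⟩ : (a i).den ∣ D := Finset.dvd_prod_of_mem _ (Finset.mem_univ i)
    refine ⟨(k : ℤ) * (a i).num, ?_⟩
    rw [hk]
    push_cast
    have := Rat.mul_den_eq_num (a i)
    linear_combination (-(k : ℚ)) * this
  choose z hz using hint
  have hzrel : ∑ i, z i • y i = 0 := by
    apply hρ
    rw [map_zero, map_sum]
    have : ∀ i, ρ (z i • y i) = (D : ℚ) • (a i • ρ (y i)) := by
      intro i
      rw [map_zsmul, smul_smul, ← hz i]
      exact (Int.cast_smul_eq_zsmul ℚ (z i) (ρ (y i))).symm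
    simp_rw [this]
    rw [← Finset.smul_sum, hrel, smul_zero]
  have hEz : ∑ i, z i • Eh (y i) = 0 := by
    rw [← map_zero Eh, ← hzrel, map_sum]
    apply Finset.sum_congr rfl
    intro i _
    rw [map_zsmul]
  rw [← Ideal.Quotient.eq_zero_iff_mem, map_sum]
  have hEz2 : (algebraMap ℚ (R ⧸ J) (D : ℚ)) *
      ∑ i, Ideal.Quotient.mk J (algebraMap ℚ R (a i) * Eel c N (t (Multiplicative.ofAdd (y i))))
      = 0 := by
    rw [Finset.mul_sum, ← hEz]
    apply Finset.sum_congr rfl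
    intro i _
    rw [map_mul, ← mul_assoc]
    have e1 : Ideal.Quotient.mk J (algebraMap ℚ R (a i)) = algebraMap ℚ (R ⧸ J) (a i) := rfl
    rw [e1, ← map_mul, ← hz i]
    rw [map_intCast]
    rw [zsmul_eq_mul]
    rfl
  have hinv : (algebraMap ℚ (R ⧸ J) ((D : ℚ)⁻¹)) * (algebraMap ℚ (R ⧸ J) (D : ℚ)) = 1 := by
    rw [← map_mul, inv_mul_cancel₀ hD, map_one]
  calc _ = (algebraMap ℚ (R ⧸ J) ((D : ℚ)⁻¹)) * ((algebraMap ℚ (R ⧸ J) (D : ℚ)) *
      ∑ i, Ideal.Quotient.mk J (algebraMap ℚ R (a i) * Eel c N (t (Multiplicative.ofAdd (y i))))) := by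
        rw [← mul_assoc, hinv, one_mul]
    _ = 0 := by rw [hEz2, mul_zero]

end

end H62Alg
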