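import Pool.Agent.H62.Alg.LogLift

/-!
# The universal difference operator, abstract form (H62/Alg/UnivA)
-/

open Finset

namespace H62Alg

lemma map_mem_smul_top {R : Type*} [CommRing R] {M N : Type*} [AddCommGroup M] [Module R M]
    [AddCommGroup N] [Module R N] (f : M →ₗ[R] N) (J : Ideal R) (x : M)
    (h : x ∈ J • (⊤ : Submodule R M)) : f x ∈ J • (⊤ : Submodule R N) := by
  refine Submodule.smul_induction_on h ?_ ?_
  · intro r hr m _
    rw [map_smul]
    exact Submodule.smul_mem_smul hr trivial
  · intro x y hx hy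
    rw [map_add]
    exact Submodule.add_mem _ hx hy

lemma mem_smul_top_pi {R : Type*} [CommRing R] {P : Type*} [Fintype P] {M : P → Type*}
    [∀ p, AddCommGroup (M p)] [∀ p, Module R (M p)] (J : Ideal R) (v : ∀ p, M p)
    (h : ∀ p, v p ∈ J • (⊤ : Submodule R (M p))) : v ∈ J • (⊤ : Submodule R (∀ p, M p)) := by
  classical
  have h1 : v = ∑ p, LinearMap.single R M p (v p) := by
    funext q
    simp [Finset.sum_apply]
  rw [h1]
  apply Submodule.sum_mem
  intro p _
  exact map_mem_smul_top _ J _ (h p)

lemma smul_top_pi_apply {R : Type*} [CommRing R] {P : Type*} (J : Ideal R) (v : P → R)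
    (h : v ∈ J • (⊤ : Submodule R (P → R))) (p : P) : v p ∈ J := by
  have h2 := map_mem_smul_top (LinearMap.proj (R := R) (φ := fun _ : P => R) p) J v h
  simpa using h2

theorem univ_abstract {R : Type*} [CommRing R] [Algebra ℚ R] [IsNoetherianRing R]
    (aug : R →+* ℚ) {n : ℕ} {P : Type*} [Fintype P] (T : Multiplicative (Fin n → ℤ) →* R)
    (haug : ∀ g, aug (T g) = 1) (c : P → (Fin n → ℤ)) (I : P → Ideal R)
    (hI : ∀ p, T (Multiplicative.ofAdd (c p)) - 1 ∈ I p) :
    ∃ lam : Fin n → R,
      (∀ k, lam k - (T (Multiplicative.ofAdd (Pi.single k 1)) - 1) ∈ (RingHom.ker aug) ^ 2) ∧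
      ∀ p, ∑ k, algebraMap ℚ R (c p k) * lam k ∈ I p := by
  classical
  set mm : Ideal R := RingHom.ker aug with hmm
  have hT : ∀ g, T g - 1 ∈ mm := by
    intro g
    rw [hmm, RingHom.mem_ker, map_sub, haug, map_one, sub_self]
  let Y := ∀ p, R ⧸ I p
  let Φ : (Fin n → R) →ₗ[R] Y := LinearMap.pi (fun p =>
    (Submodule.mkQ (I p)).comp
      (∑ k, (algebraMap ℚ R (c p k)) • (LinearMap.proj k : (Fin n → R) →ₗ[R] R)))
  have hΦ : ∀ (v : Fin n → R) (p : P), Φ v p =
      Submodule.Quotient.mk (∑ k, algebraMap ℚ R (c p k) * v k) := by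
    intro v p
    have h0 : Φ v p = Submodule.Quotient.mk
        ((∑ k, (algebraMap ℚ R (c p k)) • (LinearMap.proj k : (Fin n → R) →ₗ[R] R)) v) := rfl
    rw [h0, LinearMap.sum_apply]
    rfl
  let x0 : Fin n → R := fun k => T (Multiplicative.ofAdd (Pi.single k 1)) - 1
  let S : Submodule R (Fin n → R) := (mm ^ 2) • ⊤
  let Z := Y ⧸ (S.map Φ)
  let q : Y →ₗ[R] Z := (S.map Φ).mkQ
  -- the approximations
  have approx : ∀ N : ℕ, 1 ≤ N → ∃ w : Fin n → R, w - x0 ∈ S ∧
      Φ w ∈ (mm ^ (N + 1)) • (⊤ : Submodule R Y) := by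
    intro N hN
    obtain ⟨cc, hc⟩ := exists_coef N
    have hc0 : ∑ k ∈ range (N + 1), cc k = 0 := by
      have := hc 1 (by simp)
      simpa using this
    have hc1 : ∑ k ∈ range (N + 1), cc k * (k : ℚ) = 1 := by
      have := hc Polynomial.X (by simpa using hN)
      simpa using this
    have hLel : ∀ w : R, ∃ Lw : R, Eel cc N w = (w - 1) * Lw ∧ (aug w = 1 → aug Lw = 1) := by
      intro w
      refine ⟨∑ k ∈ range (N + 1), algebraMap ℚ R (cc k) * ∑ j ∈ range k, w ^ j, ?_, ?_⟩
      · unfold Eel
        rw [mul_sum]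
        have e1 : ∀ k, (w - 1) * (algebraMap ℚ R (cc k) * ∑ j ∈ range k, w ^ j) =
            algebraMap ℚ R (cc k) * w ^ k - algebraMap ℚ R (cc k) := by
          intro k
          have := mul_geom_sum w k
          calc (w - 1) * (algebraMap ℚ R (cc k) * ∑ j ∈ range k, w ^ j)
              = algebraMap ℚ R (cc k) * ((w - 1) * ∑ j ∈ range k, w ^ j) := by ring
            _ = _ := by rw [this]; ring
        simp_rw [e1]
        rw [sum_sub_distrib, ← map_sum, hc0, map_zero, sub_zero]
      · intro hw
        rw [map_sum]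
        have e2 : ∀ k, aug (algebraMap ℚ R (cc k) * ∑ j ∈ range k, w ^ j) = cc k * (k : ℚ) := by
          intro k
          rw [map_mul, map_sum]
          simp only [map_pow, hw, one_pow, sum_const, card_range, nsmul_eq_mul, mul_one]
          congr 1
          exact congrFun (congrArg DFunLike.coe
            (Subsingleton.elim (aug.comp (algebraMap ℚ R)) (RingHom.id ℚ))) (cc k)
        simp_rw [e2]
        exact hc1
    refine ⟨fun k => Eel cc N (T (Multiplicative.ofAdd (Pi.single k 1))), ?_, ?_⟩
    · apply mem_smul_top_pi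
      intro k
      obtain ⟨Lw, h1, h2⟩ := hLel (T (Multiplicative.ofAdd (Pi.single k 1)))
      have h3 : ((fun k => Eel cc N (T (Multiplicative.ofAdd (Pi.single k 1)))) - x0) k =
          (T (Multiplicative.ofAdd (Pi.single k 1)) - 1) * (Lw - 1) := by
        simp only [Pi.sub_apply, x0]
        rw [h1]
        ring
      rw [h3, smul_eq_mul, Ideal.mul_top, pow_two]
      apply Ideal.mul_mem_mul (hT _)
      rw [hmm, RingHom.mem_ker, map_sub, h2 (haug _), map_one, sub_self]
    · apply mem_smul_top_pi
      intro p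
      rw [hΦ]
      -- replace by an element of mm^(N+1)
      let ρ : (Fin n → ℤ) →+ (Fin n → ℚ) :=
        { toFun := fun g k => (g k : ℚ)
          map_zero' := by funext k; simp
          map_add' := by intro a b; funext k; simp }
      have hρ : Function.Injective ρ := by
        intro a b h
        funext k
        have := congrFun h k
        exact_mod_cast (show ((a k : ℤ) : ℚ) = ((b k : ℤ) : ℚ) from this)
      let yy : Option (Fin n) → (Fin n → ℤ) := fun o => o.elim (c p) (fun k => Pi.single k 1)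
      let aa : Option (Fin n) → ℚ := fun o => o.elim (-1) (fun k => (c p k : ℚ))
      have hrel : ∑ o, aa o • ρ (yy o) = 0 := by
        rw [Fintype.sum_option]
        funext j
        simp only [aa, yy, Option.elim, ρ, AddMonoidHom.coe_mk, ZeroHom.coe_mk, Pi.add_apply,
          Pi.smul_apply, smul_eq_mul, Finset.sum_apply, Pi.zero_apply]
        rw [Finset.sum_eq_single j]
        · simp
        · intro k _ hk
          rw [Pi.single_eq_of_ne (Ne.symm hk)]
          simp
        · intro h
          exact absurd (Finset.mem_univ j) h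
      have hmem := Eel_rel ρ hρ T mm hT N hN cc hc yy aa hrel
      rw [Fintype.sum_option] at hmem
      simp only [aa, yy, Option.elim] at hmem
      have hEc : Eel cc N (T (Multiplicative.ofAdd (c p))) ∈ I p := by
        obtain ⟨Lw, h1, _⟩ := hLel (T (Multiplicative.ofAdd (c p)))
        rw [h1]
        exact Ideal.mul_mem_right _ _ (hI p)
      have hdiff : (∑ k, algebraMap ℚ R (c p k) *
            Eel cc N (T (Multiplicative.ofAdd (Pi.single k 1)))) -
          (algebraMap ℚ R (-1) * Eel cc N (T (Multiplicative.ofAdd (c p))) +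
            ∑ k, algebraMap ℚ R (c p k) *
              Eel cc N (T (Multiplicative.ofAdd (Pi.single k 1)))) ∈ I p := by
        rw [map_neg, map_one]
        have : (∑ k, algebraMap ℚ R (c p k) *
            Eel cc N (T (Multiplicative.ofAdd (Pi.single k 1)))) -
          (-1 * Eel cc N (T (Multiplicative.ofAdd (c p))) +
            ∑ k, algebraMap ℚ R (c p k) *
              Eel cc N (T (Multiplicative.ofAdd (Pi.single k 1)))) =
              Eel cc N (T (Multiplicative.ofAdd (c p))) := by ring
        rw [this]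
        exact hEc
      have heq : (Submodule.Quotient.mk (∑ k, algebraMap ℚ R (c p k) *
            Eel cc N (T (Multiplicative.ofAdd (Pi.single k 1)))) : R ⧸ I p) =
          Submodule.Quotient.mk (algebraMap ℚ R (-1) * Eel cc N (T (Multiplicative.ofAdd (c p))) +
            ∑ k, algebraMap ℚ R (c p k) *
              Eel cc N (T (Multiplicative.ofAdd (Pi.single k 1)))) :=
        (Submodule.Quotient.eq _).mpr hdiff
      rw [heq]
      have h5 : ∀ x ∈ mm ^ (N + 1), (Submodule.Quotient.mk x : R ⧸ I p) ∈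
          (mm ^ (N + 1)) • (⊤ : Submodule R (R ⧸ I p)) := by
        intro x hx
        have : (Submodule.Quotient.mk x : R ⧸ I p) = x • (Submodule.Quotient.mk 1 : R ⧸ I p) := by
          rw [← Submodule.Quotient.mk_smul, smul_eq_mul, mul_one]
        rw [this]
        exact Submodule.smul_mem_smul hx trivial
      exact h5 _ hmem
  have hin : q (Φ x0) ∈ (⨅ i : ℕ, mm ^ i • ⊤ : Submodule R Z) := by
    rw [Submodule.mem_iInf]
    intro i
    obtain ⟨w, hw1, hw2⟩ := approx (i + 1) (by omega)
    have h1 : q (Φ x0) = q (Φ w) := by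
      have h2 : q (Φ (w - x0)) = 0 :=
        (Submodule.Quotient.mk_eq_zero _).mpr (Submodule.mem_map_of_mem hw1)
      rw [map_sub, map_sub] at h2
      exact (sub_eq_zero.mp h2).symm
    rw [h1]
    have h4 := map_mem_smul_top q (mm ^ (i + 1 + 1)) (Φ w) hw2
    exact Submodule.smul_mono_left (Ideal.pow_le_pow_right (by omega)) h4
  rw [Ideal.mem_iInf_smul_pow_eq_bot_iff] at hin
  obtain ⟨r, hr⟩ := hin
  have hmem : (1 - (r : R)) • Φ x0 ∈ S.map Φ := by
    have : q ((1 - (r : R)) • Φ x0) = 0 := by
      rw [map_smul, sub_smul, one_smul, hr, sub_self]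
    exact (Submodule.Quotient.mk_eq_zero _).mp this
  obtain ⟨ξ, hξ, hξ2⟩ := hmem
  refine ⟨(1 - (r : R)) • x0 - ξ, ?_, ?_⟩
  · intro k
    have h1 : ((1 - (r : R)) • x0 - ξ) k - (T (Multiplicative.ofAdd (Pi.single k 1)) - 1) =
        -((r : R) * (T (Multiplicative.ofAdd (Pi.single k 1)) - 1)) - ξ k := by
      simp only [Pi.sub_apply, Pi.smul_apply, smul_eq_mul, x0]
      ring
    rw [h1]
    apply Ideal.sub_mem
    · apply (Ideal.neg_mem_iff _).mpr
      rw [pow_two]
      exact Ideal.mul_mem_mul r.2 (hT _)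
    · exact smul_top_pi_apply _ ξ hξ k
  · intro p
    have h1 : Φ ((1 - (r : R)) • x0 - ξ) = 0 := by
      rw [map_sub, map_smul, hξ2, sub_self]
    have h2 := congrFun h1 p
    rw [hΦ] at h2
    exact (Submodule.Quotient.mk_eq_zero _).mp h2

end H62Alg
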