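import Pool.Agent.H62.Alg.UnivA

/-!
# The universal difference operator over `ℤⁿ` (H62/Alg/UnivB)
-/

open Finset

namespace H62Alg

/-- the rational group ring of `ℤⁿ` -/
abbrev GR (n : ℕ) := AddMonoidAlgebra ℚ (Fin n → ℤ)

/-- the group element `T^g` -/
noncomputable def TT {n : ℕ} (g : Fin n → ℤ) : GR n :=
  AddMonoidAlgebra.of ℚ (Fin n → ℤ) (Multiplicative.ofAdd g)

/-- the augmentation -/
noncomputable def aug (n : ℕ) : GR n →+* ℚ :=
  (AddMonoidAlgebra.lift ℚ ℚ (Fin n → ℤ) (1 : Multiplicative (Fin n → ℤ) →* ℚ)).toRingHom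

/-- an integral vector as a rational vector -/
def toQ {n : ℕ} (c : Fin n → ℤ) : Fin n → ℚ := fun k => (c k : ℚ)

lemma toQ_add {n : ℕ} (a b : Fin n → ℤ) : toQ (a + b) = toQ a + toQ b := by
  funext k; simp [toQ]

lemma toQ_sub {n : ℕ} (a b : Fin n → ℤ) : toQ (a - b) = toQ a - toQ b := by
  funext k; simp [toQ]

lemma toQ_zero {n : ℕ} : toQ (0 : Fin n → ℤ) = 0 := by
  funext k; simp [toQ]

/-- the ideal generated by `T^c - 1`, `c ∈ K` integral -/
noncomputable def Idiff {n : ℕ} (K : Submodule ℚ (Fin n → ℚ)) : Ideal (GR n) :=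
  Ideal.span {r | ∃ c : Fin n → ℤ, toQ c ∈ K ∧ r = TT c - 1}

lemma TT_mul {n : ℕ} (a b : Fin n → ℤ) : (TT (a + b) : GR n) = TT a * TT b := by
  unfold TT
  rw [ofAdd_add, map_mul]

lemma TT_zero {n : ℕ} : (TT 0 : GR n) = 1 := by
  unfold TT
  rw [ofAdd_zero, map_one]

lemma aug_TT {n : ℕ} (g : Fin n → ℤ) : aug n (TT g) = 1 := by
  unfold aug TT
  simp

instance (n : ℕ) : IsNoetherianRing (GR n) := Algebra.FiniteType.isNoetherianRing ℚ (GR n)

theorem exists_int_mul {n : ℕ} (v : Fin n → ℚ) : ∃ (D : ℕ) (c : Fin n → ℤ), D ≠ 0 ∧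
    toQ c = (D : ℚ) • v := by
  classical
  let D : ℕ := ∏ i, (v i).den
  refine ⟨D, fun i => (D / (v i).den : ℕ) * (v i).num, ?_, ?_⟩
  · exact Finset.prod_ne_zero_iff.mpr (fun i _ => (v i).den_nz)
  · funext i
    obtain ⟨k, hk⟩ : (v i).den ∣ D := Finset.dvd_prod_of_mem _ (Finset.mem_univ i)
    have hden : 0 < (v i).den := (v i).den_pos
    have h1 : D / (v i).den = k := by
      rw [hk]
      exact Nat.mul_div_cancel_left k hden
    simp only [toQ, Pi.smul_apply, smul_eq_mul, h1]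
    have := Rat.mul_den_eq_num (v i)
    rw [hk]
    push_cast
    linear_combination (-(k : ℚ)) * this

/-- **Universal difference operator.** -/
theorem univ_op (n : ℕ) {ι : Type*} [Finite ι] (K : ι → Submodule ℚ (Fin n → ℚ)) :
    ∃ Lam : (Fin n → ℚ) →ₗ[ℚ] GR n,
      (∀ i, ∀ b ∈ K i, Lam b ∈ Idiff (K i)) ∧
      (∀ k, Lam (Pi.single k 1) - (TT (Pi.single k 1) - 1) ∈ (RingHom.ker (aug n)) ^ 2) := by
  classical
  cases nonempty_fintype ι
  have hfg : ∀ i, ∃ s : Finset (Fin n → ℚ), Submodule.span ℚ (s : Set (Fin n → ℚ)) = K i :=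
    fun i => (IsNoetherian.noetherian (K i))
  choose s hs using hfg
  choose D c hD hc using fun v : Fin n → ℚ => exists_int_mul v
  let P := Σ i, {v // v ∈ s i}
  have hTT : ∀ g : Multiplicative (Fin n → ℤ),
      aug n ((AddMonoidAlgebra.of ℚ (Fin n → ℤ)) g) = 1 := fun g => aug_TT (Multiplicative.toAdd g)
  obtain ⟨lam, hlam1, hlam2⟩ := univ_abstract (R := GR n) (aug n) (n := n) (P := P)
    (AddMonoidAlgebra.of ℚ (Fin n → ℤ)) hTT (fun p => c p.2.1) (fun p => Idiff (K p.1)) (by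
      rintro ⟨i, v, hv⟩
      apply Ideal.subset_span
      refine ⟨c v, ?_, rfl⟩
      rw [hc v]
      apply Submodule.smul_mem
      rw [← hs i]
      exact Submodule.subset_span hv)
  let Lam : (Fin n → ℚ) →ₗ[ℚ] GR n :=
    ∑ k, (LinearMap.toSpanSingleton ℚ (GR n) (lam k)).comp (LinearMap.proj k)
  have hLam : ∀ b, Lam b = ∑ k, algebraMap ℚ (GR n) (b k) * lam k := by
    intro b
    simp only [Lam, LinearMap.sum_apply, LinearMap.comp_apply, LinearMap.proj_apply,
      LinearMap.toSpanSingleton_apply]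
    apply Finset.sum_congr rfl
    intro k _
    rw [Algebra.smul_def]
  refine ⟨Lam, ?_, ?_⟩
  · intro i b hb
    have hle : K i ≤ ((Idiff (K i)).restrictScalars ℚ).comap Lam := by
      rw [← hs i, Submodule.span_le, hs i]
      intro v hv
      show Lam v ∈ Idiff (K i)
      have h1 : Lam (toQ (c v)) ∈ Idiff (K i) := by
        rw [hLam]
        exact hlam2 ⟨i, v, hv⟩
      rw [hc v, map_smul] at h1
      have h2 : Lam v = ((D v : ℚ)⁻¹) • ((D v : ℚ) • Lam v) := by
        rw [smul_smul, inv_mul_cancel₀ (by exact_mod_cast hD v), one_smul]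
      rw [h2, Algebra.smul_def]
      exact Ideal.mul_mem_left _ _ h1
    exact hle hb
  · intro k
    have h1 : Lam (Pi.single k 1) = lam k := by
      rw [hLam, Finset.sum_eq_single k]
      · rw [Pi.single_eq_same, map_one, one_mul]
      · intro j _ hj
        rw [Pi.single_eq_of_ne hj]
        simp
      · intro h
        exact absurd (Finset.mem_univ k) h
    rw [h1]
    exact hlam1 k

end H62Alg
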