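import Pool.Agent.H62.Alg.UnivB

/-!
# Evaluation of the universal difference operator (H62/Alg/UnivC)
-/

open Finset

namespace H62Alg

section
variable {n : ℕ} {V : Type*} [AddCommGroup V] [Module ℚ V]

/-- Evaluation of a group ring element on a function: `ev x (∑ a_f T^f) = ∑ a_f x(f)`. -/
noncomputable def ev (x : (Fin n → ℤ) → V) : GR n →ₗ[ℚ] V :=
  (Finsupp.linearCombination ℚ x).comp
    (AddMonoidAlgebra.coeffLinearEquiv (S := ℚ) (M := Fin n → ℤ) ℚ).toLinearMap

lemma ev_eq (x : (Fin n → ℤ) → V) (r : GR n) :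
    ev x r = r.coeff.sum (fun f a => a • x f) := rfl

lemma ev_TT (x : (Fin n → ℤ) → V) (g : Fin n → ℤ) : ev x (TT g) = x g := by
  rw [ev_eq]
  unfold TT
  simp

lemma ev_one (x : (Fin n → ℤ) → V) : ev x 1 = x 0 := by
  rw [← TT_zero, ev_TT]

lemma single_eq (g : Fin n → ℤ) (q : ℚ) : (AddMonoidAlgebra.single g q : GR n) = q • TT g := by
  unfold TT
  rw [AddMonoidAlgebra.of_apply, AddMonoidAlgebra.smul_single, smul_eq_mul, mul_one]
  rfl

@[elab_as_elim]
theorem GR_ind {P : GR n → Prop} (r : GR n) (h0 : P 0) (hadd : ∀ a b, P a → P b → P (a + b))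
    (hT : ∀ (q : ℚ) (g : Fin n → ℤ), P (q • TT g)) : P r := by
  induction r using AddMonoidAlgebra.induction_linear with
  | zero => exact h0
  | add a b ha hb => exact hadd a b ha hb
  | single g q =>
    rw [single_eq]
    exact hT q g

lemma ev_mul (x : (Fin n → ℤ) → V) (r s : GR n) :
    ev x (r * s) = ev (fun g => ev (fun f => x (g + f)) s) r := by
  induction r using GR_ind with
  | h0 => rw [zero_mul, map_zero, map_zero]
  | hadd a b ha hb => rw [add_mul, map_add, map_add, ha, hb]
  | hT q g =>
    rw [smul_mul_assoc, map_smul, map_smul, ev_TT]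
    congr 1
    induction s using GR_ind with
    | h0 => rw [mul_zero, map_zero, map_zero]
    | hadd a b ha hb => rw [mul_add, map_add, map_add, ha, hb]
    | hT q' f => rw [mul_smul_comm, map_smul, map_smul, ev_TT, ← TT_mul, ev_TT]

/-- Evaluations lie in any submodule containing the values. -/
lemma ev_mem (x : (Fin n → ℤ) → V) (W : Submodule ℚ V) (h : ∀ g, x g ∈ W) (r : GR n) :
    ev x r ∈ W := by
  induction r using GR_ind with
  | h0 => rw [map_zero]; exact W.zero_mem
  | hadd a b ha hb => rw [map_add]; exact W.add_mem ha hb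
  | hT q g =>
    rw [map_smul, ev_TT]
    exact W.smul_mem q (h g)

/-- Elements of `Idiff K` are evaluated into `W` when the differences of `x` over `K` lie
in `W`. -/
theorem ev_Idiff (x : (Fin n → ℤ) → V) (W : Submodule ℚ V) (K : Submodule ℚ (Fin n → ℚ))
    (h : ∀ f f', toQ (f - f') ∈ K → x f - x f' ∈ W) {r : GR n} (hr : r ∈ Idiff K) :
    ev x r ∈ W := by
  unfold Idiff at hr
  have key : ∀ x : (Fin n → ℤ) → V, (∀ f f', toQ (f - f') ∈ K → x f - x f' ∈ W) →
      ev x r ∈ W := by
    clear h x
    induction hr using Submodule.span_induction with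
    | mem r hr =>
      intro x h
      obtain ⟨c, hc, rfl⟩ := hr
      rw [map_sub, ev_TT, ev_one]
      apply h
      rw [sub_zero]
      exact hc
    | zero => intro x _; rw [map_zero]; exact W.zero_mem
    | add a b _ _ ha hb => intro x h; rw [map_add]; exact W.add_mem (ha x h) (hb x h)
    | smul a r hr ih =>
      intro x h
      rw [smul_eq_mul, ev_mul]
      apply ev_mem
      intro g
      apply ih
      intro f f' hff
      apply h
      rw [add_sub_add_left_eq_sub]
      exact hff
  exact key x h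

/-- The coset sums of an element of `Idiff K` vanish. -/
theorem cosetSum_Idiff (K : Submodule ℚ (Fin n → ℚ)) {r : GR n} (hr : r ∈ Idiff K)
    (z : Fin n → ℤ) [DecidablePred fun f : Fin n → ℤ => toQ (f - z) ∈ K] :
    r.coeff.sum (fun f a => if toQ (f - z) ∈ K then a else 0) = 0 := by
  have h := ev_Idiff (V := ℚ) (fun f => if toQ (f - z) ∈ K then (1 : ℚ) else 0) ⊥ K (by
    intro f f' hff
    rw [Submodule.mem_bot]
    have : toQ (f - z) ∈ K ↔ toQ (f' - z) ∈ K := by
      have e : toQ (f - z) = toQ (f - f') + toQ (f' - z) := by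
        rw [← toQ_add]
        congr 1
        abel
      rw [e]
      exact Submodule.add_mem_iff_right K hff
    simp only [this, sub_self]) hr
  rw [Submodule.mem_bot, ev_eq] at h
  refine Eq.trans ?_ h
  apply Finsupp.sum_congr
  intro f _
  split_ifs <;> simp

lemma aug_smul (q : ℚ) (r : GR n) : aug n (q • r) = q * aug n r := by
  rw [Algebra.smul_def, map_mul]
  congr 1
  exact congrFun (congrArg DFunLike.coe
    (Subsingleton.elim ((aug n).comp (algebraMap ℚ (GR n))) (RingHom.id ℚ))) q

/-- The augmentation is the sum of the coefficients. -/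
lemma aug_eq_ev (r : GR n) : aug n r = ev (fun _ => (1 : ℚ)) r := by
  induction r using GR_ind with
  | h0 => rw [map_zero, map_zero]
  | hadd a b ha hb => rw [map_add, map_add, ha, hb]
  | hT q g => rw [aug_smul, aug_TT, map_smul, ev_TT, smul_eq_mul]

/-- The first moment. -/
noncomputable def mom : GR n →ₗ[ℚ] (Fin n → ℚ) := ev toQ

lemma mom_mul (r s : GR n) : mom (r * s) = aug n s • mom r + aug n r • mom s := by
  unfold mom
  rw [ev_mul]
  have h1 : (fun g : Fin n → ℤ => ev (fun f => toQ (g + f)) s) =
      fun g => aug n s • toQ g + ev toQ s := by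
    funext g
    induction s using GR_ind with
    | h0 => simp
    | hadd a b ha hb =>
      rw [map_add, map_add, map_add, ha, hb, add_smul]
      abel
    | hT q f =>
      rw [aug_smul, aug_TT, map_smul, map_smul, ev_TT, ev_TT, toQ_add, smul_add, mul_one]
  rw [h1]
  induction r using GR_ind with
  | h0 => simp
  | hadd a b ha hb =>
    rw [map_add, map_add, map_add, ha, hb, add_smul, smul_add]
    abel
  | hT q f =>
    rw [aug_smul, aug_TT, map_smul, map_smul, ev_TT, ev_TT, smul_add, mul_one, smul_comm]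

lemma mom_sq {r : GR n} (hr : r ∈ (RingHom.ker (aug n)) ^ 2) : mom r = 0 := by
  rw [pow_two] at hr
  refine Submodule.mul_induction_on hr ?_ ?_
  · intro a ha b hb
    rw [RingHom.mem_ker] at ha hb
    rw [mom_mul, ha, hb, zero_smul, zero_smul, add_zero]
  · intro a b ha hb
    rw [map_add, ha, hb, add_zero]

lemma mom_TT (g : Fin n → ℤ) : mom (TT g : GR n) = toQ g := ev_TT _ _

/-- **Universal difference operator**, all consequences. -/
theorem univ_full (n : ℕ) {ι : Type*} [Finite ι] (K : ι → Submodule ℚ (Fin n → ℚ)) :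
    ∃ Lam : (Fin n → ℚ) →ₗ[ℚ] GR n,
      (∀ i, ∀ b ∈ K i, Lam b ∈ Idiff (K i)) ∧
      (∀ b, aug n (Lam b) = 0) ∧ (∀ b, mom (Lam b) = b) := by
  obtain ⟨Lam, h1, h2⟩ := univ_op n K
  refine ⟨Lam, h1, ?_, ?_⟩
  · intro b
    have h3 : ∀ k, aug n (Lam (Pi.single k 1)) = 0 := by
      intro k
      have h4 : Lam (Pi.single k 1) - (TT (Pi.single k 1) - 1) ∈ RingHom.ker (aug n) :=
        Ideal.pow_le_self (two_ne_zero) (h2 k)
      rw [RingHom.mem_ker, map_sub, map_sub, aug_TT, map_one] at h4
      linarith
    have h5 : b = ∑ k, b k • (Pi.single k (1 : ℚ) : Fin n → ℚ) := by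
      funext j
      simp [Finset.sum_apply, Pi.single_apply]
    rw [h5, map_sum, map_sum]
    apply Finset.sum_eq_zero
    intro k _
    rw [map_smul, aug_smul, h3, mul_zero]
  · intro b
    have h3 : ∀ k, mom (Lam (Pi.single k 1)) = Pi.single k 1 := by
      intro k
      have h4 := mom_sq (h2 k)
      rw [map_sub, map_sub, mom_TT] at h4
      have h6 : mom (1 : GR n) = 0 := by
        rw [← TT_zero, mom_TT, toQ_zero]
      rw [h6, sub_zero] at h4
      have h7 : toQ (Pi.single k 1 : Fin n → ℤ) = (Pi.single k 1 : Fin n → ℚ) := by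
        funext j
        by_cases hj : j = k
        · subst hj; simp [toQ]
        · simp [toQ, Pi.single_eq_of_ne hj]
      rw [h7] at h4
      exact sub_eq_zero.mp h4
    have h5 : b = ∑ k, b k • (Pi.single k (1 : ℚ) : Fin n → ℚ) := by
      funext j
      simp [Finset.sum_apply, Pi.single_apply]
    conv_rhs => rw [h5]
    rw [h5, map_sum, map_sum]
    apply Finset.sum_congr rfl
    intro k _
    rw [map_smul, map_smul, h3]
    congr 1
    rw [← h5]

end

end H62Alg
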